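import Pool.Agent.Helper11.SG.Goals2

/-!
# Project SG (MP_a41896_nt), packet SG2-NUM2: the final numbers of part 2
-/

set_option autoImplicit false

namespace Pool.Agent.Helper35.SG2

theorem t_NUM2 : Pool.Agent.Helper11.SG.NUM2 := by
  intro M c₀ C C₁ hc₀ hC hC₁
  set Kt : ℝ := C * (1 + C₁) + 2 * M * c₀ + 2 * c₀ + 2 * c₀ + C + 4 * c₀ with hKt
  have hM0 : (0 : ℝ) ≤ M := Nat.cast_nonneg M
  have hKt0 : 0 ≤ Kt := by positivity
  refine ⟨Kt / 3 + 1, by linarith [div_nonneg hKt0 (by norm_num : (0 : ℝ) ≤ 3)], ?_⟩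
  intro k0 e ε θ y t g h0 h1 h2 h3 w0 w1 a0 a1 A hε hk hMθ hy ht hg hh0 hh1 hh hh2 hw ha0 ha1
    ha hA hmain
  set q : ℝ := (4 : ℝ) ^ e with hq
  have hq1 : 1 ≤ q := one_le_pow₀ (by norm_num)
  have hq0 : 0 < q := by linarith
  have hKy : Kt < 3 * y := by
    have h5 : Kt / 3 < y := by linarith
    linarith
  have hy0 : 0 < y := by linarith
  -- left side
  have hleft : 10 * q * y ≤ ((k0 : ℝ) * q) * g := by
    have hk0 : (0 : ℝ) ≤ k0 := Nat.cast_nonneg k0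
    have e1 : ((k0 : ℝ) * q) * (ε * y) ≤ ((k0 : ℝ) * q) * g :=
      mul_le_mul_of_nonneg_left hg (by positivity)
    have e2 : 10 * (q * y) ≤ (ε * k0) * (q * y) :=
      mul_le_mul_of_nonneg_right hk (by positivity)
    calc 10 * q * y = 10 * (q * y) := by ring
      _ ≤ (ε * k0) * (q * y) := e2
      _ = ((k0 : ℝ) * q) * (ε * y) := by ring
      _ ≤ _ := e1
  -- right side
  have r1 : C * (q + A) ≤ C * (1 + C₁) * q := by
    calc C * (q + A) ≤ C * (q + C₁ * q) := mul_le_mul_of_nonneg_left (by linarith) hC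
      _ = C * (1 + C₁) * q := by ring
  have r2 : M * w0 + M * w1 ≤ 2 * q * y + 2 * M * c₀ := by
    have e1 : M * (w0 + w1) ≤ M * (θ ^ 2 * t + 2 * c₀) := mul_le_mul_of_nonneg_left hw hM0
    have e2 : (M * θ ^ 2) * t ≤ (M * θ ^ 2) * (2 * q * y) :=
      mul_le_mul_of_nonneg_left ht (by positivity)
    have e3 : (M * θ ^ 2) * (2 * q * y) ≤ 1 * (2 * q * y) :=
      mul_le_mul_of_nonneg_right hMθ (by positivity)
    nlinarith
  have r3 : q * h0 + q * h1 ≤ q * y + 2 * c₀ * q := by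
    have e1 := mul_le_mul_of_nonneg_left hh hq0.le
    linarith
  have r4 : h2 + h3 ≤ 2 * q * y + 2 * c₀ := by linarith
  have r5 : a0 * (C + 2 * h0) + a1 * (C + 2 * h1) ≤ q * (C + 2 * y + 4 * c₀) := by
    have e0 : a0 * (C + 2 * h0) ≤ a0 * (C + 2 * (y + 2 * c₀)) :=
      mul_le_mul_of_nonneg_left (by linarith) ha0
    have e1 : a1 * (C + 2 * h1) ≤ a1 * (C + 2 * (y + 2 * c₀)) :=
      mul_le_mul_of_nonneg_left (by linarith) ha1
    have e2 : (a0 + a1) * (C + 2 * (y + 2 * c₀)) ≤ q * (C + 2 * (y + 2 * c₀)) :=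
      mul_le_mul_of_nonneg_right ha (by positivity)
    linarith
  have hc1 : 2 * M * c₀ ≤ 2 * M * c₀ * q := le_mul_of_one_le_right (by positivity) hq1
  have hc2 : 2 * c₀ ≤ 2 * c₀ * q := le_mul_of_one_le_right (by positivity) hq1
  have htot : 10 * q * y ≤ 7 * q * y + Kt * q := by
    rw [hKt]
    have e1 : (C * (1 + C₁) + 2 * M * c₀ + 2 * c₀ + 2 * c₀ + C + 4 * c₀) * q =
      C * (1 + C₁) * q + 2 * M * c₀ * q + 2 * c₀ * q + 2 * c₀ * q + C * q + 4 * c₀ * q := by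
      ring
    rw [e1]
    linarith
  have hfin : Kt * q < 3 * y * q := mul_lt_mul_of_pos_right hKy hq0
  linarith

end Pool.Agent.Helper35.SG2
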