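import Pool.Agent.Helper66.SG.Goals

/-!
# Project SG (MP_a41896_nt), packet SG2-RDG: degrees of the resultant
-/

set_option autoImplicit false

namespace Pool.Agent.Helper35.SG2

open MvPolynomial Pool.Agent.Helper76.SGA

theorem degreeOf_det_le {K τ : Type} [Field K] {n : ℕ}
    (M : Matrix (Fin n) (Fin n) (MvPolynomial τ K)) (h : τ) (w : Fin n → ℕ)
    (hw : ∀ i j, (M i j).degreeOf h ≤ w j) : M.det.degreeOf h ≤ ∑ j, w j := by
  classical
  rw [Matrix.det_apply]
  refine (degreeOf_sum_le h _ _).trans (Finset.sup_le fun s _ => ?_)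
  have h1 : (∏ i, M (s i) i).degreeOf h ≤ ∑ j, w j :=
    (degreeOf_prod_le h _ _).trans (Finset.sum_le_sum fun i _ => hw _ _)
  rcases Int.units_eq_one_or (Equiv.Perm.sign s) with h2 | h2
  · rw [h2, one_smul]
    exact h1
  · rw [h2, Units.neg_smul, one_smul, degreeOf_neg]
    exact h1

theorem t_rdg (hsep : Pool.Agent.Helper76.SGA.SEP) : Pool.Agent.Helper66.SG.RDG := by
  intro K _ m D d f g hf hg h
  obtain ⟨-, -, -, -, s5, s6, -, -, -⟩ := hsep K m
  have key : ∀ N M : ℕ, N ≤ D → M ≤ d →
      (Polynomial.resultant (sepL K m f) (sepL K m g) N M).degreeOf h ≤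
        d * f.degreeOf (Fin.castSucc h) + D * g.degreeOf (Fin.castSucc h) := by
    intro N M hN hM
    unfold Polynomial.resultant
    refine (degreeOf_det_le _ h (Fin.addCases (fun _ : Fin N => g.degreeOf (Fin.castSucc h))
      (fun _ : Fin M => f.degreeOf (Fin.castSucc h))) ?_).trans ?_
    · intro i j
      refine Fin.addCases (fun j₁ => ?_) (fun j₁ => ?_) j
      · rw [Fin.addCases_left]
        unfold Polynomial.sylvester
        rw [Matrix.of_apply, Fin.addCases_left]
        split_ifs
        · exact s6 g _ h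
        · rw [degreeOf_zero]
          exact Nat.zero_le _
      · rw [Fin.addCases_right]
        unfold Polynomial.sylvester
        rw [Matrix.of_apply, Fin.addCases_right]
        split_ifs
        · exact s6 f _ h
        · rw [degreeOf_zero]
          exact Nat.zero_le _
    · rw [Fin.sum_univ_add]
      simp only [Fin.addCases_left, Fin.addCases_right, Finset.sum_const, Finset.card_univ,
        Fintype.card_fin, smul_eq_mul]
      have h1 := Nat.mul_le_mul_right (g.degreeOf (Fin.castSucc h)) hN
      have h2 := Nat.mul_le_mul_right (f.degreeOf (Fin.castSucc h)) hM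
      omega
  refine key _ _ ?_ ?_
  · rw [s5]
    exact hf
  · rw [s5]
    exact hg

end Pool.Agent.Helper35.SG2
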