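import Pool.Agent.Helper66.SG.Goals

/-!
# Project SG (MP_a41896_nt), packet SG2-RNF: the resultant of a prime polynomial
-/

set_option autoImplicit false

namespace Pool.Agent.Helper35.SG2

open Polynomial

theorem t_rnf : Pool.Agent.Helper66.SG.RNF := by
  intro A _ _ _ F G hF hdeg hdvd h0
  have hFi : Irreducible F := hF.irreducible
  have hFp : F.IsPrimitive := hFi.isPrimitive (by omega)
  have hinj : Function.Injective (algebraMap A (FractionRing A)) :=
    IsFractionRing.injective A (FractionRing A)
  have h1 : Irreducible (F.map (algebraMap A (FractionRing A))) :=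
    (hFp.irreducible_iff_irreducible_map_fraction_map).1 hFi
  have h2 : ¬ F.map (algebraMap A (FractionRing A)) ∣ G.map (algebraMap A (FractionRing A)) :=
    fun h => hdvd (hFp.dvd_of_fraction_map_dvd_fraction_map h)
  have h3 : IsCoprime (F.map (algebraMap A (FractionRing A)))
      (G.map (algebraMap A (FractionRing A))) := (h1.coprime_iff_not_dvd).2 h2
  have h4 := Polynomial.resultant_ne_zero _ _ h3
  apply h4
  rw [Polynomial.natDegree_map_eq_of_injective hinj,
    Polynomial.natDegree_map_eq_of_injective hinj, Polynomial.resultant_map_map, h0, map_zero]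

end Pool.Agent.Helper35.SG2
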